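import Mathlib

/-!
A closed curve in the plane which goes once around `c` through the four quadrants has `c` in a
bounded component of its complement.
-/

set_option autoImplicit false

open Set Filter Topology Bornology

namespace Pool.Agent.Y108.KS

open Complex

/-- the winding integral -/
noncomputable def wi (g g' : ℝ → ℂ) (a b : ℝ) (q : ℂ) : ℂ := ∫ t in a..b, g' t / (g t - q)

section

variable {g g' : ℝ → ℂ}

lemma cont_int (hg : Continuous g) (hg' : Continuous g') {q : ℂ} (hq : ∀ t, g t ≠ q) :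
    Continuous fun t => g' t / (g t - q) :=
  hg'.div (hg.sub continuous_const) fun t => sub_ne_zero.2 (hq t)

lemma exp_wi (hd : ∀ t, HasDerivAt g (g' t) t) (hg' : Continuous g') {T : ℝ}
    (hT : g T = g 0) {q : ℂ} (hq : ∀ t, g t ≠ q) : Complex.exp (wi g g' 0 T q) = 1 := by
  have hg : Continuous g := continuous_iff_continuousAt.2 fun t => (hd t).continuousAt
  have hc := cont_int hg hg' hq
  have h1 : ∀ s, HasDerivAt (fun s => Complex.exp (-wi g g' 0 s q) * (g s - q)) 0 s := by
    intro s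
    have e1 : HasDerivAt (fun s => wi g g' 0 s q) (g' s / (g s - q)) s :=
      (hc.integral_hasStrictDerivAt 0 s).hasDerivAt
    have e2 := (e1.neg.cexp).mul ((hd s).sub_const q)
    refine e2.congr_deriv ?_
    have h0 : g s - q ≠ 0 := sub_ne_zero.2 (hq s)
    field_simp
    ring
  have h2 := is_const_of_deriv_eq_zero (fun s => (h1 s).differentiableAt)
    (fun s => (h1 s).deriv) T 0
  have h3 : wi g g' 0 0 q = 0 := by unfold wi; simp
  simp only [h3, neg_zero, Complex.exp_zero, one_mul, hT] at h2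
  have h4 : g 0 - q ≠ 0 := sub_ne_zero.2 (hq 0)
  have h5 : Complex.exp (-wi g g' 0 T q) = 1 := by
    have : (Complex.exp (-wi g g' 0 T q) - 1) * (g 0 - q) = 0 := by linear_combination h2
    rcases mul_eq_zero.1 this with h | h
    · exact sub_eq_zero.1 h
    · exact absurd h h4
  rw [Complex.exp_neg, inv_eq_one] at h5
  exact h5

/-- one piece -/
lemma piece (hd : ∀ t, HasDerivAt g (g' t) t) (hg' : Continuous g') {q : ℂ} (hq : ∀ t, g t ≠ q)
    {a b : ℝ} (hab : a ≤ b) (u : ℂ) (hu : ∀ t ∈ Icc a b, 0 < (u * (g t - q)).re) :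
    (wi g g' a b q).im = (u * (g b - q)).arg - (u * (g a - q)).arg := by
  have hg : Continuous g := continuous_iff_continuousAt.2 fun t => (hd t).continuousAt
  have hc := cont_int hg hg' hq
  have hu0 : u ≠ 0 := by
    rintro rfl
    have := hu a ⟨le_rfl, hab⟩
    simp at this
  have h1 : ∫ t in a..b, g' t / (g t - q) =
      Complex.log (u * (g b - q)) - Complex.log (u * (g a - q)) := by
    refine intervalIntegral.integral_eq_sub_of_hasDerivAt (f := fun t => Complex.log (u * (g t - q)))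
      (fun t ht => ?_) (hc.intervalIntegrable _ _)
    rw [uIcc_of_le hab] at ht
    have h2 : HasDerivAt (fun t => u * (g t - q)) (u * g' t) t :=
      ((hd t).sub_const q).const_mul u
    have h3 := h2.clog_real (Or.inl (hu t ht))
    refine h3.congr_deriv ?_
    have h0 : g t - q ≠ 0 := sub_ne_zero.2 (hq t)
    field_simp
  unfold wi
  rw [h1, Complex.sub_im, Complex.log_im, Complex.log_im]

/-- the argument of a positive multiple of `1 + I` -/
lemma arg_pos_mul {r : ℝ} (hr : 0 < r) {z : ℂ} (hz : z = r * (1 + Complex.I)) :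
    z.arg = (1 + Complex.I).arg := by
  rw [hz, Complex.arg_real_mul _ hr]

lemma arg_neg_mul {r : ℝ} (hr : 0 < r) {z : ℂ} (hz : z = r * (1 - Complex.I)) :
    z.arg = -(1 + Complex.I).arg := by
  rw [hz, Complex.arg_real_mul _ hr]
  have h1 : (1 - Complex.I : ℂ) = (starRingEnd ℂ) (1 + Complex.I) := by
    simp [sub_eq_add_neg]
  rw [h1, Complex.arg_conj]
  rw [if_neg]
  intro h
  have := (Complex.arg_eq_pi_iff.1 h).1
  simp at this
  linarith

lemma arg_one_add : 0 < (1 + Complex.I).arg := by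
  have h1 : 0 ≤ (1 + Complex.I).arg := by
    rw [Complex.arg_nonneg_iff]
    simp
  rcases lt_or_eq_of_le h1 with h | h
  · exact h
  · exfalso
    have := (Complex.arg_eq_zero_iff.1 h.symm).2
    simp at this

end

/-- The winding integral around `c` of a curve through the four quadrants is not zero. -/
lemma wi_ne {g g' : ℝ → ℂ} (hd : ∀ t, HasDerivAt g (g' t) t) (hg' : Continuous g') {c : ℂ}
    (hc : ∀ t, g t ≠ c) {t₁ t₂ t₃ T : ℝ} (hT : g T = g 0) (h1 : 0 < t₁) (h2 : t₁ < t₂)
    (h3 : t₂ < t₃) (h4 : t₃ < T)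
    (q1 : ∀ t ∈ Icc 0 t₁, c.re ≤ (g t).re ∧ c.im ≤ (g t).im)
    (q2 : ∀ t ∈ Icc t₁ t₂, c.re ≤ (g t).re ∧ (g t).im ≤ c.im)
    (q3 : ∀ t ∈ Icc t₂ t₃, (g t).re ≤ c.re ∧ (g t).im ≤ c.im)
    (q4 : ∀ t ∈ Icc t₃ T, (g t).re ≤ c.re ∧ c.im ≤ (g t).im) :
    (wi g g' 0 T c).im < 0 := by
  have hg : Continuous g := continuous_iff_continuousAt.2 fun t => (hd t).continuousAt
  have hcc := cont_int hg hg' hc
  -- not both coordinates vanish
  have hne : ∀ t, (g t).re - c.re ≠ 0 ∨ (g t).im - c.im ≠ 0 := by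
    intro t
    by_contra hcon
    push Not at hcon
    exact hc t (Complex.ext (sub_eq_zero.1 hcon.1) (sub_eq_zero.1 hcon.2))
  have p1 := piece hd hg' hc h1.le (1 - Complex.I) (by
    intro t ht
    obtain ⟨a, b⟩ := q1 t ht
    have : ((1 - Complex.I) * (g t - c)).re = ((g t).re - c.re) + ((g t).im - c.im) := by
      simp [Complex.mul_re]
      ring
    rw [this]
    rcases hne t with h | h
    · have : 0 < (g t).re - c.re := lt_of_le_of_ne (by linarith) (Ne.symm h)
      linarith
    · have : 0 < (g t).im - c.im := lt_of_le_of_ne (by linarith) (Ne.symm h)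
      linarith)
  have p2 := piece hd hg' hc h2.le (1 + Complex.I) (by
    intro t ht
    obtain ⟨a, b⟩ := q2 t ht
    have : ((1 + Complex.I) * (g t - c)).re = ((g t).re - c.re) - ((g t).im - c.im) := by
      simp [Complex.mul_re]
    rw [this]
    rcases hne t with h | h
    · have : 0 < (g t).re - c.re := lt_of_le_of_ne (by linarith) (Ne.symm h)
      linarith
    · have : (g t).im - c.im < 0 := lt_of_le_of_ne (by linarith) h
      linarith)
  have p3 := piece hd hg' hc h3.le (-1 + Complex.I) (by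
    intro t ht
    obtain ⟨a, b⟩ := q3 t ht
    have : ((-1 + Complex.I) * (g t - c)).re = -((g t).re - c.re) - ((g t).im - c.im) := by
      simp [Complex.mul_re]
    rw [this]
    rcases hne t with h | h
    · have : (g t).re - c.re < 0 := lt_of_le_of_ne (by linarith) h
      linarith
    · have : (g t).im - c.im < 0 := lt_of_le_of_ne (by linarith) h
      linarith)
  have p4 := piece hd hg' hc h4.le (-1 - Complex.I) (by
    intro t ht
    obtain ⟨a, b⟩ := q4 t ht
    have : ((-1 - Complex.I) * (g t - c)).re = -((g t).re - c.re) + ((g t).im - c.im) := by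
      simp [Complex.mul_re]
      ring
    rw [this]
    rcases hne t with h | h
    · have : (g t).re - c.re < 0 := lt_of_le_of_ne (by linarith) h
      linarith
    · have : 0 < (g t).im - c.im := lt_of_le_of_ne (by linarith) (Ne.symm h)
      linarith)
  -- the corners
  have a0 : (g 0).re = c.re ∧ c.im < (g 0).im := by
    have e1 := q1 0 ⟨le_rfl, h1.le⟩
    have e2 := q4 T ⟨h4.le, le_rfl⟩
    rw [hT] at e2
    have e3 : (g 0).re = c.re := le_antisymm e2.1 e1.1
    refine ⟨e3, lt_of_le_of_ne e1.2 fun h => ?_⟩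
    exact hc 0 (Complex.ext e3 h.symm)
  have a1 : c.re < (g t₁).re ∧ (g t₁).im = c.im := by
    have e1 := q1 t₁ ⟨h1.le, le_rfl⟩
    have e2 := q2 t₁ ⟨le_rfl, h2.le⟩
    have e3 : (g t₁).im = c.im := le_antisymm e2.2 e1.2
    refine ⟨lt_of_le_of_ne e1.1 fun h => ?_, e3⟩
    exact hc t₁ (Complex.ext h.symm e3)
  have a2 : (g t₂).re = c.re ∧ (g t₂).im < c.im := by
    have e1 := q2 t₂ ⟨h2.le, le_rfl⟩
    have e2 := q3 t₂ ⟨le_rfl, h3.le⟩
    have e3 : (g t₂).re = c.re := le_antisymm e2.1 e1.1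
    refine ⟨e3, lt_of_le_of_ne e1.2 fun h => ?_⟩
    exact hc t₂ (Complex.ext e3 h)
  have a3 : (g t₃).re < c.re ∧ (g t₃).im = c.im := by
    have e1 := q3 t₃ ⟨h3.le, le_rfl⟩
    have e2 := q4 t₃ ⟨le_rfl, h4.le⟩
    have e3 : (g t₃).im = c.im := le_antisymm e1.2 e2.2
    refine ⟨lt_of_le_of_ne e1.1 fun h => ?_, e3⟩
    exact hc t₃ (Complex.ext h e3)
  set α := (1 + Complex.I).arg with hα
  have r1 : ((1 - Complex.I) * (g t₁ - c)).arg = -α :=
    arg_neg_mul (r := (g t₁).re - c.re) (by linarith [a1.1]) (by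
      apply Complex.ext <;> simp [a1.2])
  have r2 : ((1 - Complex.I) * (g 0 - c)).arg = α :=
    arg_pos_mul (r := (g 0).im - c.im) (by linarith [a0.2]) (by
      apply Complex.ext <;> simp [a0.1])
  have r3 : ((1 + Complex.I) * (g t₂ - c)).arg = -α :=
    arg_neg_mul (r := -((g t₂).im - c.im)) (by linarith [a2.2]) (by
      apply Complex.ext <;> simp [a2.1])
  have r4 : ((1 + Complex.I) * (g t₁ - c)).arg = α :=
    arg_pos_mul (r := (g t₁).re - c.re) (by linarith [a1.1]) (by
      apply Complex.ext <;> simp [a1.2])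
  have r5 : ((-1 + Complex.I) * (g t₃ - c)).arg = -α :=
    arg_neg_mul (r := -((g t₃).re - c.re)) (by linarith [a3.1]) (by
      apply Complex.ext <;> simp [a3.2])
  have r6 : ((-1 + Complex.I) * (g t₂ - c)).arg = α :=
    arg_pos_mul (r := -((g t₂).im - c.im)) (by linarith [a2.2]) (by
      apply Complex.ext <;> simp [a2.1])
  have r7 : ((-1 - Complex.I) * (g T - c)).arg = -α :=
    arg_neg_mul (r := (g 0).im - c.im) (by linarith [a0.2]) (by
      rw [hT]
      apply Complex.ext <;> simp [a0.1])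
  have r8 : ((-1 - Complex.I) * (g t₃ - c)).arg = α :=
    arg_pos_mul (r := -((g t₃).re - c.re)) (by linarith [a3.1]) (by
      apply Complex.ext <;> simp [a3.2])
  rw [r1, r2] at p1
  rw [r3, r4] at p2
  rw [r5, r6] at p3
  rw [r7, r8] at p4
  have hsum : wi g g' 0 T c = wi g g' 0 t₁ c + wi g g' t₁ t₂ c + wi g g' t₂ t₃ c +
      wi g g' t₃ T c := by
    unfold wi
    rw [intervalIntegral.integral_add_adjacent_intervals (hcc.intervalIntegrable _ _)
      (hcc.intervalIntegrable _ _),
      intervalIntegral.integral_add_adjacent_intervals (hcc.intervalIntegrable _ _)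
      (hcc.intervalIntegrable _ _),
      intervalIntegral.integral_add_adjacent_intervals (hcc.intervalIntegrable _ _)
      (hcc.intervalIntegrable _ _)]
  rw [hsum]
  simp only [Complex.add_im]
  rw [p1, p2, p3, p4]
  have := arg_one_add
  rw [← hα] at this
  linarith

/-- The component of `c` is bounded. -/
theorem bdd_comp {g g' : ℝ → ℂ} (hd : ∀ t, HasDerivAt g (g' t) t) (hg' : Continuous g') {c : ℂ}
    (hc : ∀ t, g t ≠ c) {T : ℝ} (hT0 : 0 < T) (hper : ∀ t, g (t + T) = g t)
    (hw : (wi g g' 0 T c).im < 0) {S : Set ℂ} (hS : IsPreconnected S) (hcS : c ∈ S)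
    (hSd : ∀ q ∈ S, ∀ t, g t ≠ q) : ∃ R : ℝ, ∀ q ∈ S, ‖q‖ ≤ R := by
  have hg : Continuous g := continuous_iff_continuousAt.2 fun t => (hd t).continuousAt
  have hTg : g T = g 0 := by
    have := hper 0
    rwa [zero_add] at this
  -- the range is closed
  have hK : IsCompact (range g) :=
    Function.Periodic.compact_of_continuous (c := T) hper hT0.ne' hg
  have hopen : IsOpen (range g)ᶜ := hK.isClosed.isOpen_compl
  have hmem : ∀ q : ℂ, q ∈ (range g)ᶜ ↔ ∀ t, g t ≠ q := by
    intro q
    constructor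
    · intro h t ht
      exact h ⟨t, ht⟩
    · rintro h ⟨t, ht⟩
      exact h t ht
  -- continuity of the winding integral
  have hcont : ContinuousOn (fun q => wi g g' 0 T q) (range g)ᶜ := by
    rw [continuousOn_iff_continuous_domRestrict]
    have hF : Continuous (Function.uncurry
        fun (q : ((range g)ᶜ : Set ℂ)) (t : ℝ) => g' t / (g t - q)) := by
      have e1 : Continuous fun p : ((range g)ᶜ : Set ℂ) × ℝ => g' p.2 :=
        hg'.comp continuous_snd
      have e2 : Continuous fun p : ((range g)ᶜ : Set ℂ) × ℝ => g p.2 - (p.1 : ℂ) :=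
        (hg.comp continuous_snd).sub (continuous_subtype_val.comp continuous_fst)
      exact e1.div e2 fun p => sub_ne_zero.2 ((hmem _).1 p.1.2 p.2)
    exact intervalIntegral.continuous_parametric_intervalIntegral_of_continuous' hF 0 T
  -- the values
  have hval : ∀ q : ℂ, (∀ t, g t ≠ q) → ∃ n : ℤ, (wi g g' 0 T q).im = n * (2 * Real.pi) := by
    intro q hq
    obtain ⟨n, hn⟩ := Complex.exp_eq_one_iff.1 (exp_wi hd hg' hTg hq)
    refine ⟨n, ?_⟩
    rw [hn]
    simp
  -- bounds
  obtain ⟨R, hR⟩ : ∃ R : ℝ, ∀ t, ‖g t‖ ≤ R := by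
    obtain ⟨R, hR⟩ := hK.isBounded.exists_norm_le
    exact ⟨R, fun t => hR _ ⟨t, rfl⟩⟩
  obtain ⟨M, hM⟩ : ∃ M : ℝ, ∀ t ∈ Icc 0 T, ‖g' t‖ ≤ M := by
    obtain ⟨M, hM⟩ := (isCompact_Icc (a := (0 : ℝ)) (b := T)).exists_bound_of_continuousOn
      hg'.continuousOn
    exact ⟨M, hM⟩
  have hM0 : 0 ≤ M := (norm_nonneg _).trans (hM 0 ⟨le_rfl, hT0.le⟩)
  refine ⟨R + M * T + 1, fun q hq => ?_⟩
  by_contra hcon
  push Not at hcon
  -- the winding integral at `q` vanishes
  have hq1 : M * T + 1 < ‖q‖ - R := by linarith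
  have hpos : 0 < ‖q‖ - R := by
    have : 0 ≤ M * T := by positivity
    linarith
  have hb : ‖wi g g' 0 T q‖ ≤ M / (‖q‖ - R) * |T - 0| := by
    refine intervalIntegral.norm_integral_le_of_norm_le_const fun t ht => ?_
    rw [uIoc_of_le hT0.le] at ht
    rw [norm_div]
    have e1 : ‖q‖ - R ≤ ‖g t - q‖ := by
      have := norm_sub_norm_le q (g t)
      rw [norm_sub_rev] at this
      linarith [hR t]
    exact div_le_div₀ hM0 (hM t ⟨ht.1.le, ht.2⟩) hpos e1
  have hb2 : ‖wi g g' 0 T q‖ < 1 := by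
    refine lt_of_le_of_lt hb ?_
    rw [sub_zero, abs_of_pos hT0, div_mul_eq_mul_div, div_lt_one hpos]
    linarith
  have hq0 : (wi g g' 0 T q).im = 0 := by
    obtain ⟨n, hn⟩ := hval q (hSd q hq)
    have h1 : |(wi g g' 0 T q).im| < 1 := lt_of_le_of_lt (Complex.abs_im_le_norm _) hb2
    rw [hn, abs_mul, abs_of_pos Real.two_pi_pos] at h1
    have h2 : (6 : ℝ) ≤ 2 * Real.pi := by linarith [Real.pi_gt_three]
    have h3 : |(n : ℝ)| < 1 := by
      by_contra h
      push Not at h
      nlinarith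
    have h4 : n = 0 := by
      have h5 : |n| < 1 := by exact_mod_cast h3
      exact Int.abs_lt_one_iff.1 h5
    rw [hn, h4]
    simp
  -- intermediate value
  have hf : ContinuousOn (fun q => (wi g g' 0 T q).im) S :=
    Complex.continuous_im.comp_continuousOn (hcont.mono fun p hp => (hmem p).2 (hSd p hp))
  obtain ⟨n, hn⟩ := hval c hc
  have hn0 : n ≤ -1 := by
    by_contra h
    push Not at h
    have h1 : (0 : ℝ) ≤ n := by exact_mod_cast (by omega : (0 : ℤ) ≤ n)
    have h2 := Real.two_pi_pos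
    rw [hn] at hw
    nlinarith
  have hn1 : (n : ℝ) ≤ -1 := by exact_mod_cast hn0
  have hπ := Real.pi_pos
  have hmid : (-Real.pi) ∈ Icc ((wi g g' 0 T c).im) ((wi g g' 0 T q).im) := by
    rw [hq0, hn]
    constructor
    · nlinarith
    · linarith
  obtain ⟨p, hp, hp2⟩ := hS.intermediate_value hcS hq hf hmid
  obtain ⟨k, hk⟩ := hval p (hSd p hp)
  simp only at hp2
  rw [hk] at hp2
  have h1 : (k : ℝ) * 2 = -1 := by
    have : ((k : ℝ) * 2 + 1) * Real.pi = 0 := by linarith
    rcases mul_eq_zero.1 this with h | h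
    · linarith
    · exact absurd h hπ.ne'
  have h2 : k * 2 = -1 := by exact_mod_cast h1
  omega

end Pool.Agent.Y108.KS
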