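import Pool.Agent.Y300.KS.Stm
import Pool.Agent.Y108.KS.WindC

/-! Project KS, job WIND. -/

set_option autoImplicit false

open Set Filter Topology Bornology

namespace Pool.Agent.Y108.KS

open Pool.Agent.Y300.KS

theorem wind_all : S_WIND := by
  intro W z c t₁ t₂ t₃ T hW hz hper h1 h2 h3 h4 hc q1 q2 q3 q4
  set Φ := Complex.equivRealProdCLM with hΦ
  have hre : ∀ p : ℝ × ℝ, (Φ.symm p).re = p.1 := fun p => by simp [hΦ]
  have him : ∀ p : ℝ × ℝ, (Φ.symm p).im = p.2 := fun p => by simp [hΦ]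
  have hz' : Continuous z := continuous_iff_continuousAt.2 fun t => (hz t).continuousAt
  have hd : ∀ t, HasDerivAt (fun t => Φ.symm (z t)) (Φ.symm (W (z t))) t := fun t =>
    (Φ.symm.hasFDerivAt (x := z t)).comp_hasDerivAt t (hz t)
  have hg' : Continuous fun t => Φ.symm (W (z t)) := Φ.symm.continuous.comp (hW.comp hz')
  have hc' : ∀ t, Φ.symm (z t) ≠ Φ.symm c := fun t h => hc t (Φ.symm.injective h)
  have hT0 : 0 < T := h1.trans (h2.trans (h3.trans h4))
  have hTz : z T = z 0 := by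
    have := hper 0
    rwa [zero_add] at this
  have hw := wi_ne hd hg' hc' (t₁ := t₁) (t₂ := t₂) (t₃ := t₃) (T := T) (by rw [hTz]) h1 h2 h3 h4
    (fun t ht => by rw [hre, hre, him, him]; exact q1 t ht)
    (fun t ht => by rw [hre, hre, him, him]; exact q2 t ht)
    (fun t ht => by rw [hre, hre, him, him]; exact q3 t ht)
    (fun t ht => by rw [hre, hre, him, him]; exact q4 t ht)
  have hcm : c ∈ (range z)ᶜ := by
    rintro ⟨t, ht⟩
    exact hc t ht
  obtain ⟨R, hR⟩ := bdd_comp hd hg' hc' hT0 (fun t => by rw [hper]) hw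
    (S := Φ.symm '' (connectedComponentIn (range z)ᶜ c))
    (isPreconnected_connectedComponentIn.image _ Φ.symm.continuous.continuousOn)
    ⟨c, mem_connectedComponentIn hcm, rfl⟩ (by
      rintro _ ⟨p, hp, rfl⟩ t h
      exact connectedComponentIn_subset _ _ hp ⟨t, Φ.symm.injective h⟩)
  rw [isBounded_iff_forall_norm_le]
  refine ⟨R, fun p hp => ?_⟩
  refine le_trans ?_ (hR _ ⟨p, hp, rfl⟩)
  rw [Prod.norm_def]
  refine max_le ?_ ?_
  · have := Complex.abs_re_le_norm (Φ.symm p)
    rwa [hre] at this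
  · have := Complex.abs_im_le_norm (Φ.symm p)
    rwa [him] at this

end Pool.Agent.Y108.KS
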